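import Mathlib
import Pool.Agent.Results.MP_6e5331_al.OrderableNotElem

set_option autoImplicit false

namespace Pool.Agent.Results.MP_6e5331_al.DirectFactors

open OrderableNotElem

section
variable {G K : Type*} [Group G] [Group K]

lemma pos_prod (c d : G) (f : G × K) : Pos ((c, 1) : G × K) (d, 1) f ↔ Pos c d f.1 := by
  constructor
  · rintro ⟨b, l, k, h1, h2, h3⟩
    exact ⟨b.1, l.1, k.1, fun x => congrArg Prod.fst (h1 (x, 1)), congrArg Prod.fst h2,
      congrArg Prod.fst h3⟩
  · rintro ⟨b, l, k, h1, h2, h3⟩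
    refine ⟨(b, f.2⁻¹), (l, 1), (k, 1), fun x => ?_, ?_, ?_⟩
    · ext
      · exact h1 x.1
      · simp
    · ext
      · exact h2
      · simp
    · ext
      · exact h3
      · simp

/-- The separating sentence fails in a product if it fails in one factor. -/
theorem not_sem_prod (h : ¬ Sem G) : ¬ Sem (G × K) := by
  intro hS
  apply h
  rintro c d ⟨h1, h2, h3⟩ ⟨g, a, b, h4, h5⟩
  refine hS (c, 1) (d, 1) ⟨?_, ?_, ?_⟩ ⟨(g, 1), (a, 1), (b, 1), ?_, ?_⟩
  · rw [pos_prod]
    exact h1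
  · intro x y hxy
    rw [pos_prod, pos_prod] at hxy
    rw [pos_prod]
    exact h2 _ _ hxy
  · intro x y hx
    rw [pos_prod] at hx
    rw [pos_prod]
    exact h3 _ _ hx
  · rw [pos_prod]
    exact h4
  · rw [pos_prod]
    exact h5

/-- The lexicographic ordering of a product. -/
theorem orderable_prod (hG : Orderable G) (hK : Orderable K) : Orderable (G × K) := by
  obtain ⟨r, hr, hr'⟩ := hG
  obtain ⟨s, hs, hs'⟩ := hK
  obtain ⟨r1, r2, r3, r4⟩ := hr
  obtain ⟨s1, s2, s3, s4⟩ := hs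
  refine ⟨fun x y => (r x.1 y.1 ∧ x.1 ≠ y.1) ∨ (x.1 = y.1 ∧ s x.2 y.2), ⟨?_, ?_, ?_, ?_⟩, ?_⟩
  · intro a
    exact Or.inr ⟨rfl, s1 _⟩
  · rintro a b (⟨h1, h2⟩ | ⟨h1, h2⟩) (⟨h3, h4⟩ | ⟨h3, h4⟩)
    · exact absurd (r2 _ _ h1 h3) h2
    · exact absurd h3.symm h2
    · exact absurd h1.symm h4
    · exact Prod.ext h1 (s2 _ _ h2 h4)
  · rintro a b c (⟨h1, h2⟩ | ⟨h1, h2⟩) (⟨h3, h4⟩ | ⟨h3, h4⟩)
    · refine Or.inl ⟨r3 _ _ _ h1 h3, fun h => h2 (r2 _ _ h1 ?_)⟩
      rw [h]
      exact h3
    · refine Or.inl ⟨?_, ?_⟩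
      · rw [← h3]
        exact h1
      · rw [← h3]
        exact h2
    · refine Or.inl ⟨?_, ?_⟩
      · rw [h1]
        exact h3
      · rw [h1]
        exact h4
    · exact Or.inr ⟨h1.trans h3, s3 _ _ _ h2 h4⟩
  · rintro x y a b (⟨h1, h2⟩ | ⟨h1, h2⟩)
    · refine Or.inl ⟨r4 _ _ _ _ h1, fun h => h2 ?_⟩
      have h3 : x.1 * a.1 * y.1 = x.1 * b.1 * y.1 := h
      exact mul_left_cancel (mul_right_cancel h3)
    · refine Or.inr ⟨?_, s4 _ _ _ _ h2⟩
      change x.1 * a.1 * y.1 = x.1 * b.1 * y.1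
      rw [h1]
  · intro a b
    by_cases h : a.1 = b.1
    · rcases hs' a.2 b.2 with h1 | h1
      · exact Or.inl (Or.inr ⟨h, h1⟩)
      · exact Or.inr (Or.inr ⟨h.symm, h1⟩)
    · rcases hr' a.1 b.1 with h1 | h1
      · exact Or.inl (Or.inl ⟨h1, h⟩)
      · exact Or.inr (Or.inl ⟨h1, fun h2 => h h2.symm⟩)

end

/-- There are one first-order sentence `φ` in the language of groups that is true in every
pro-orderable group, and an orderable group `G`, such that `φ` is false in `G` and in `G × K` for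
every group `K` (orderable or not); if `K` is orderable, then so is `G × K`. In particular, every
orderable group is a direct factor of an orderable group that does not satisfy all first-order
sentences that hold in the pro-orderable groups. -/
theorem result.{u, w} :
    ∃ φ : groupLanguage.Sentence,
      (∀ (P : Type u) [Group P], ProOrderable P → Holds P φ) ∧
      ∃ (G : Type) (_ : Group G), Orderable G ∧ ¬ Holds G φ ∧
        ∀ (K : Type w) [Group K], ¬ Holds (G × K) φ ∧ (Orderable K → Orderable (G × K)) :=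
  ⟨sepSentence, fun P _ hP => (holds_sep P).mpr (sem_of_proOrderable P hP),
    W, inferInstance, W.orderable, fun h => W.not_sem ((holds_sep W).mp h),
    fun K _ => ⟨fun h => not_sem_prod W.not_sem ((holds_sep (W × K)).mp h),
      orderable_prod W.orderable⟩⟩

end Pool.Agent.Results.MP_6e5331_al.DirectFactors
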